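import Pool.Agent.helper17.MLG.Spec

set_option autoImplicit false
set_option linter.unusedSectionVars false

namespace Pool.Agent.MLG

open MeasureTheory Set Filter Topology Module
open scoped ENNReal ContDiff

theorem APX (hCSM : CSM_stmt) (hCTV : CTV_stmt) (hMOL : MOL_stmt) (hCVL : CVL_stmt) : APX_stmt := by
  intro V _ _ _ _ _ _ hV u hu
  have h : ∀ k : ℕ, ∃ m : V → ℝ, Mol m ∧ tsupport m ⊆ Metric.ball (1 : V) (1 / ((k : ℝ) + 1)) := by
    intro k
    obtain ⟨m, h1, h2, _⟩ := hMOL V hV (Metric.ball (1 : V) (1 / ((k : ℝ) + 1)))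
      (Metric.ball_mem_nhds _ (by positivity))
    exact ⟨m, h1, h2⟩
  choose m hm hs using h
  refine ⟨fun k => cv (m k) u, fun k => ⟨(hCSM V hV (m k) u (hm k) hu).1,
    (hCSM V hV (m k) u (hm k) hu).2, hCTV V hV (m k) u (hm k) hu⟩, ?_⟩
  refine hCVL V hV m u hm ?_ hu
  intro U hU
  obtain ⟨ε, hε, hb⟩ := Metric.mem_nhds_iff.1 hU
  obtain ⟨N, hN⟩ := exists_nat_one_div_lt hε
  filter_upwards [eventually_ge_atTop N] with k hk
  refine (hs k).trans ((Metric.ball_subset_ball ?_).trans hb)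
  have h1 : (1 : ℝ) / ((k : ℝ) + 1) ≤ 1 / ((N : ℝ) + 1) := by
    apply one_div_le_one_div_of_le (by positivity)
    have : (N : ℝ) ≤ k := by exact_mod_cast hk
    linarith
  linarith

end Pool.Agent.MLG
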