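import Pool.Agent.helper17.MLG.Spec

set_option autoImplicit false
set_option linter.unusedSectionVars false

namespace Pool.Agent.MLG

open MeasureTheory Set Filter Topology Module
open scoped ENNReal ContDiff

section

variable {V : Type} [NormedAddCommGroup V] [InnerProductSpace ℝ V] [FiniteDimensional ℝ V] [MeasurableSpace V]
  [BorelSpace V] [Group V]

theorem CTT_conv {F : Type} [NormedAddCommGroup F] (u : ℕ → V → ℝ) (w : V → ℝ) (hL : L1 u w) (D : V → F)
    (hD : Continuous D) (hDs : HasCompactSupport D) :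
    Tendsto (fun k => ∫⁻ x, ENNReal.ofReal |u k x - w x| * ‖D x‖ₑ ∂(vol V)) atTop (𝓝 0) := by
  obtain ⟨M, hM⟩ := hD.bounded_above_of_compact_support hDs
  have hC : IsCompact (tsupport D) := hDs
  have h1 : Tendsto (fun k => ENNReal.ofReal M * ∫⁻ x in tsupport D, ENNReal.ofReal |u k x - w x| ∂(vol V))
      atTop (𝓝 0) := by
    have := ENNReal.Tendsto.const_mul (a := ENNReal.ofReal M) (hL _ hC) (Or.inr ENNReal.ofReal_ne_top)
    rwa [mul_zero] at this
  refine tendsto_of_tendsto_of_tendsto_of_le_of_le tendsto_const_nhds h1 (fun _ => zero_le) (fun k => ?_)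
  show ∫⁻ x, ENNReal.ofReal |u k x - w x| * ‖D x‖ₑ ∂(vol V) ≤
    ENNReal.ofReal M * ∫⁻ x in tsupport D, ENNReal.ofReal |u k x - w x| ∂(vol V)
  rw [← lintegral_const_mul' _ _ ENNReal.ofReal_ne_top, ← lintegral_indicator (isClosed_tsupport D).measurableSet]
  refine lintegral_mono fun x => ?_
  by_cases hx : x ∈ tsupport D
  · rw [indicator_of_mem hx, mul_comm]
    gcongr
    rw [← ofReal_norm]
    exact ENNReal.ofReal_le_ofReal (hM x)
  · rw [indicator_of_notMem hx, image_eq_zero_of_notMem_tsupport hx]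
    simp

theorem CTT_liminf (a b : ℕ → ℝ≥0∞) : liminf a atTop + liminf b atTop ≤ liminf (fun k => a k + b k) atTop := by
  rw [liminf_eq_iSup_iInf_of_nat, liminf_eq_iSup_iInf_of_nat, liminf_eq_iSup_iInf_of_nat,
    ENNReal.iSup_add_iSup_of_monotone]
  · refine iSup_mono fun n => ?_
    refine le_iInf₂ fun i hi => ?_
    exact add_le_add (iInf₂_le i hi) (iInf₂_le i hi)
  · intro n m hnm
    exact le_iInf₂ fun i hi => iInf₂_le i (le_trans hnm hi)
  · intro n m hnm
    exact le_iInf₂ fun i hi => iInf₂_le i (le_trans hnm hi)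

theorem CTT_smooth (hTVS : TVS_stmt) (hGRR : GRR_stmt) (hV : IsLie V) (f z : V → ℝ) (hf : ContDiff ℝ ∞ f)
    (hfu : IsU f) (hz : Cut z) :
    tv (fun x => z x * f x) + tv (fun x => (1 - z x) * f x) ≤
      tv f + 2 * ∫⁻ x, ENNReal.ofReal (f x) * ‖gr z x‖ₑ ∂(vol V) := by
  obtain ⟨g1, g2, g3, -, g5, -, -, -⟩ := hGRR V hV
  have hz1 : ContDiff ℝ ∞ (fun x => 1 - z x) := contDiff_const.sub hz.smooth
  have hfd : Differentiable ℝ f := hf.differentiable (by simp)
  have hzd : Differentiable ℝ z := hz.smooth.differentiable (by simp)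
  have hz1d : Differentiable ℝ (fun x => 1 - z x) := hz1.differentiable (by simp)
  have e1 : ∀ x, gr (fun y => 1 - z y) x = - gr z x := by
    intro x
    have h := g5 z (fun t => 1 - t) hzd (by fun_prop) x
    have h2 : deriv (fun t : ℝ => 1 - t) (z x) = -1 := by
      rw [deriv_const_sub]
      simp
    rw [h2] at h
    rw [h]
    simp
  rw [hTVS V hV _ (hz.smooth.mul hf), hTVS V hV _ (hz1.mul hf), hTVS V hV _ hf]
  have c1 : Continuous (gr (fun x => z x * f x)) := g2 _ ((hz.smooth.mul hf).of_le (by simp))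
  rw [← lintegral_add_left c1.enorm.measurable]
  have c2 : Continuous (gr f) := g2 _ (hf.of_le (by simp))
  have c3 : Continuous (gr z) := g2 _ (hz.smooth.of_le (by simp))
  rw [← lintegral_const_mul' _ _ (by simp : (2 : ℝ≥0∞) ≠ ⊤), ← lintegral_add_left c2.enorm.measurable]
  refine lintegral_mono fun x => ?_
  show ‖gr (fun y => z y * f y) x‖ₑ + ‖gr (fun y => (1 - z y) * f y) x‖ₑ ≤
    ‖gr f x‖ₑ + 2 * (ENNReal.ofReal (f x) * ‖gr z x‖ₑ)
  rw [g3 z f hzd hfd, g3 (fun y => 1 - z y) f hz1d hfd, e1]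
  have n1 : ‖z x • gr f x + f x • gr z x‖ₑ ≤ ENNReal.ofReal (z x) * ‖gr f x‖ₑ + ENNReal.ofReal (f x) * ‖gr z x‖ₑ := by
    refine (enorm_add_le _ _).trans ?_
    rw [enorm_smul, enorm_smul, Real.enorm_eq_ofReal (hz.nonneg x), Real.enorm_eq_ofReal (hfu.nonneg x)]
  have n2 : ‖(1 - z x) • gr f x + f x • - gr z x‖ₑ ≤
      ENNReal.ofReal (1 - z x) * ‖gr f x‖ₑ + ENNReal.ofReal (f x) * ‖gr z x‖ₑ := by
    refine (enorm_add_le _ _).trans ?_
    rw [enorm_smul, enorm_smul, enorm_neg, Real.enorm_eq_ofReal (sub_nonneg.2 (hz.le_one x)),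
      Real.enorm_eq_ofReal (hfu.nonneg x)]
  refine (add_le_add n1 n2).trans ?_
  have n3 : ENNReal.ofReal (z x) + ENNReal.ofReal (1 - z x) = 1 := by
    rw [← ENNReal.ofReal_add (hz.nonneg x) (sub_nonneg.2 (hz.le_one x))]
    simp
  calc ENNReal.ofReal (z x) * ‖gr f x‖ₑ + ENNReal.ofReal (f x) * ‖gr z x‖ₑ +
        (ENNReal.ofReal (1 - z x) * ‖gr f x‖ₑ + ENNReal.ofReal (f x) * ‖gr z x‖ₑ)
      = (ENNReal.ofReal (z x) + ENNReal.ofReal (1 - z x)) * ‖gr f x‖ₑ +
        2 * (ENNReal.ofReal (f x) * ‖gr z x‖ₑ) := by ring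
    _ ≤ _ := by rw [n3, one_mul]

end

theorem CTT (hAPX : APX_stmt) (hTVS : TVS_stmt) (hLSC : LSC_stmt) (hGRR : GRR_stmt) (hMES : MES_stmt) :
    CTT_stmt := by
  intro V _ _ _ _ _ _ hV u z hu hz
  obtain ⟨f, hf, hL⟩ := hAPX V hV u hu
  have hzm : Measurable z := hz.smooth.continuous.measurable
  have U1 : ∀ g : V → ℝ, IsU g → IsU (fun x => z x * g x) := fun g hg =>
    ⟨hzm.mul hg.meas, fun x => mul_nonneg (hz.nonneg x) (hg.nonneg x),
      fun x => mul_le_one₀ (hz.le_one x) (hg.nonneg x) (hg.le_one x)⟩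
  have U2 : ∀ g : V → ℝ, IsU g → IsU (fun x => (1 - z x) * g x) := fun g hg =>
    ⟨(measurable_const.sub hzm).mul hg.meas, fun x => mul_nonneg (sub_nonneg.2 (hz.le_one x)) (hg.nonneg x),
      fun x => mul_le_one₀ (by linarith [hz.nonneg x]) (hg.nonneg x) (hg.le_one x)⟩
  have key : ∀ c : V → ℝ, (∀ x, 0 ≤ c x) → (∀ x, c x ≤ 1) → L1 (fun k x => c x * f k x) (fun x => c x * u x) := by
    intro c hc0 hc1 C hC
    refine tendsto_of_tendsto_of_tendsto_of_le_of_le tendsto_const_nhds (hL C hC) (fun _ => zero_le)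
      (fun k => lintegral_mono fun x => ENNReal.ofReal_le_ofReal ?_)
    show |c x * f k x - c x * u x| ≤ |f k x - u x|
    rw [← mul_sub, abs_mul, abs_of_nonneg (hc0 x)]
    exact mul_le_of_le_one_left (abs_nonneg _) (hc1 x)
  have l1 := hLSC V hV (fun k x => z x * f k x) (fun x => z x * u x) (fun k => U1 _ (hf k).2.1) (U1 _ hu)
    (key z hz.nonneg hz.le_one)
  have l2 := hLSC V hV (fun k x => (1 - z x) * f k x) (fun x => (1 - z x) * u x) (fun k => U2 _ (hf k).2.1)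
    (U2 _ hu) (key (fun x => 1 - z x) (fun x => sub_nonneg.2 (hz.le_one x)) (fun x => by linarith [hz.nonneg x]))
  have c3 : Continuous (gr z) := (hGRR V hV).2.1 _ (hz.smooth.of_le (by simp))
  have s3 : HasCompactSupport (gr z) := (hGRR V hV).2.2.2.2.2.2.1 _ hz.supp
  have t1 := CTT_conv f u hL (gr z) c3 s3
  set S := ∫⁻ x, ENNReal.ofReal (u x) * ‖gr z x‖ₑ ∂(vol V) with hS
  have hSk : ∀ k, ∫⁻ x, ENNReal.ofReal (f k x) * ‖gr z x‖ₑ ∂(vol V) ≤
      S + ∫⁻ x, ENNReal.ofReal |f k x - u x| * ‖gr z x‖ₑ ∂(vol V) := by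
    intro k
    rw [hS, ← lintegral_add_left (by
      exact (ENNReal.measurable_ofReal.comp hu.meas).mul c3.enorm.measurable)]
    refine lintegral_mono fun x => ?_
    show ENNReal.ofReal (f k x) * ‖gr z x‖ₑ ≤ ENNReal.ofReal (u x) * ‖gr z x‖ₑ +
      ENNReal.ofReal |f k x - u x| * ‖gr z x‖ₑ
    rw [← add_mul, ← ENNReal.ofReal_add (hu.nonneg x) (abs_nonneg _)]
    gcongr
    linarith [le_abs_self (f k x - u x)]
  have hk : ∀ k, tv (fun x => z x * f k x) + tv (fun x => (1 - z x) * f k x) ≤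
      tv u + 2 * (S + ∫⁻ x, ENNReal.ofReal |f k x - u x| * ‖gr z x‖ₑ ∂(vol V)) := by
    intro k
    refine (CTT_smooth hTVS hGRR hV (f k) z (hf k).1 (hf k).2.1 hz).trans ?_
    exact add_le_add (hf k).2.2 (mul_le_mul_right (hSk k) _)
  have t2 : Tendsto (fun k => tv u + 2 * (S + ∫⁻ x, ENNReal.ofReal |f k x - u x| * ‖gr z x‖ₑ ∂(vol V)))
      atTop (𝓝 (tv u + 2 * (S + 0))) := by
    refine tendsto_const_nhds.add (ENNReal.Tendsto.const_mul (tendsto_const_nhds.add t1) (Or.inr (by simp)))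
  rw [add_zero] at t2
  calc tv (fun x => z x * u x) + tv (fun x => (1 - z x) * u x)
      ≤ liminf (fun k => tv (fun x => z x * f k x)) atTop +
        liminf (fun k => tv (fun x => (1 - z x) * f k x)) atTop := add_le_add l1 l2
    _ ≤ liminf (fun k => tv (fun x => z x * f k x) + tv (fun x => (1 - z x) * f k x)) atTop := CTT_liminf _ _
    _ ≤ liminf (fun k => tv u + 2 * (S + ∫⁻ x, ENNReal.ofReal |f k x - u x| * ‖gr z x‖ₑ ∂(vol V))) atTop :=
        liminf_le_liminf (Eventually.of_forall hk)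
    _ = _ := t2.liminf_eq

end Pool.Agent.MLG
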