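import Pool.Agent.helper17.MLG.Spec

set_option autoImplicit false
set_option linter.unusedSectionVars false

namespace Pool.Agent.MLG

open MeasureTheory Set Filter Topology Module
open scoped ENNReal ContDiff

section

variable {V : Type} [NormedAddCommGroup V] [InnerProductSpace ℝ V] [FiniteDimensional ℝ V] [MeasurableSpace V]
  [BorelSpace V] [Group V]

theorem LSC_conv {F : Type} [NormedAddCommGroup F] (u : ℕ → V → ℝ) (w : V → ℝ) (hL : L1 u w) (D : V → F)
    (hD : Continuous D) (hDs : HasCompactSupport D) :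
    Tendsto (fun k => ∫⁻ x, ENNReal.ofReal |u k x - w x| * ‖D x‖ₑ ∂(vol V)) atTop (𝓝 0) := by
  obtain ⟨M, hM⟩ := hD.bounded_above_of_compact_support hDs
  have hC : IsCompact (tsupport D) := hDs
  have h1 : Tendsto (fun k => ENNReal.ofReal M * ∫⁻ x in tsupport D, ENNReal.ofReal |u k x - w x| ∂(vol V))
      atTop (𝓝 0) := by
    have := ENNReal.Tendsto.const_mul (a := ENNReal.ofReal M) (hL _ hC) (Or.inr ENNReal.ofReal_ne_top)
    rwa [mul_zero] at this
  refine tendsto_of_tendsto_of_tendsto_of_le_of_le tendsto_const_nhds h1 (fun _ => zero_le) (fun k => ?_)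
  show ∫⁻ x, ENNReal.ofReal |u k x - w x| * ‖D x‖ₑ ∂(vol V) ≤
    ENNReal.ofReal M * ∫⁻ x in tsupport D, ENNReal.ofReal |u k x - w x| ∂(vol V)
  rw [← lintegral_const_mul' _ _ ENNReal.ofReal_ne_top, ← lintegral_indicator (isClosed_tsupport D).measurableSet]
  refine lintegral_mono fun x => ?_
  by_cases hx : x ∈ tsupport D
  · rw [indicator_of_mem hx, mul_comm]
    gcongr
    rw [← ofReal_norm]
    exact ENNReal.ofReal_le_ofReal (hM x)
  · rw [indicator_of_notMem hx, image_eq_zero_of_notMem_tsupport hx]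
    simp

end

theorem LSC (hIBP : IBP_stmt) (hMES : MES_stmt) : LSC_stmt := by
  intro V _ _ _ _ _ _ hV u w hu hw hL
  have hT := top hV
  have hH := (hMES V hV).1
  unfold tv
  refine iSup₂_le fun a ha => ?_
  obtain ⟨hD, hDs, -⟩ := hIBP V hV a ha.smooth ha.supp
  have hint : Integrable (dvg a) (vol V) := hD.integrable_of_hasCompactSupport hDs
  have hi : ∀ f : V → ℝ, IsU f → Integrable (fun x => f x * dvg a x) (vol V) := by
    intro f hf
    refine hint.bdd_mul (c := 1) hf.meas.aestronglyMeasurable (Eventually.of_forall fun x => ?_)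
    rw [Real.norm_eq_abs, abs_of_nonneg (hf.nonneg x)]
    exact hf.le_one x
  have h1 : Tendsto (fun k => ∫ x, u k x * dvg a x ∂(vol V)) atTop (𝓝 (∫ x, w x * dvg a x ∂(vol V))) := by
    refine tendsto_integral_of_L1 _ (hi w hw).aestronglyMeasurable (Eventually.of_forall fun k => hi _ (hu k)) ?_
    have h2 := LSC_conv u w hL (dvg a) hD hDs
    refine h2.congr fun k => lintegral_congr fun x => ?_
    rw [← sub_mul, enorm_mul, ← Real.enorm_eq_ofReal_abs]
  have h3 : Tendsto (fun k => ENNReal.ofReal (∫ x, u k x * dvg a x ∂(vol V))) atTop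
      (𝓝 (ENNReal.ofReal (∫ x, w x * dvg a x ∂(vol V)))) := ENNReal.tendsto_ofReal h1
  rw [← h3.liminf_eq]
  refine liminf_le_liminf (Eventually.of_forall fun k => ?_)
  exact le_iSup₂ (f := fun (a : V → V) (_ : Adm a) => ENNReal.ofReal (∫ x, u k x * dvg a x ∂(vol V))) a ha

end Pool.Agent.MLG
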